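import Mathlib
import Pool.Agent.V11320.MaxGauss3

set_option autoImplicit false
open MeasureTheory ProbabilityTheory
open scoped ENNReal NNReal BigOperators Topology

namespace Pool.Agent.Results.MP_29ad01_pr.GaussianTail

/-- A dynamical Brownian environment on the probability space `(Ω, P)`: `B i t x` is the value of
line `i` at place `x` and time `t`; it is a centred Gaussian field with covariance
`1{i = j} exp(-|s - t|) min x y`, and for each line and each time the path is almost surely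
continuous. -/
structure IsDynamicalBrownian {Ω : Type} [MeasurableSpace Ω] (P : Measure Ω)
    (B : ℕ → ℝ≥0 → ℝ≥0 → Ω → ℝ) : Prop where
  meas : ∀ i t x, Measurable (B i t x)
  gauss : IsGaussianProcess (fun q : ℕ × ℝ≥0 × ℝ≥0 => B q.1 q.2.1 q.2.2) P
  mean : ∀ i t x, ∫ ω, B i t x ω ∂P = 0
  cov : ∀ i j s t x y, ∫ ω, B i s x ω * B j t y ω ∂P
    = if i = j then Real.exp (-|(s : ℝ) - (t : ℝ)|) * min (x : ℝ) (y : ℝ) else 0
  cont : ∀ i t, ∀ᵐ ω ∂P, Continuous fun x => B i t x ω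

/-- the jump places `0 = z(-1) ≤ z(0) ≤ ... ≤ z(n) = n`; the entry `w j` is `z(j - 1)` -/
def Jumps (n : ℕ) : Type :=
  {w : Fin (n + 2) → ℝ≥0 // Monotone w ∧ w 0 = 0 ∧ w (Fin.last (n + 1)) = n}

/-- the last passage time from `(0,0)` to `(n,n)` in the environment at time `t` -/
noncomputable def passage {Ω : Type} (B : ℕ → ℝ≥0 → ℝ≥0 → Ω → ℝ) (n : ℕ) (t : ℝ≥0) (ω : Ω) : ℝ :=
  ⨆ w : Jumps n, ∑ i : Fin (n + 1), (B i t (w.1 i.succ) ω - B i t (w.1 i.castSucc) ω)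

/-- The tail of the normalised change of the passage time is Gaussian, uniformly in `n ≥ 1` and
`t > 0`; in particular it decays faster than any power. -/
theorem result :
    (∀ (Ω : Type) [MeasurableSpace Ω] (P : Measure Ω) [IsProbabilityMeasure P]
        (B : ℕ → ℝ≥0 → ℝ≥0 → Ω → ℝ), IsDynamicalBrownian P B →
        ∀ (n : ℕ), 1 ≤ n → ∀ t : ℝ≥0, 0 < t → ∀ α : ℝ, 0 < α →
          P {ω | α * Real.sqrt (n * t) ≤ |passage B n t ω - passage B n 0 ω|}
            ≤ ENNReal.ofReal (2 * Real.exp (-(α ^ 2 / Real.pi ^ 2)))) ∧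
    (∀ k : ℝ, 0 < k → ∃ C : ℝ, ∀ (Ω : Type) [MeasurableSpace Ω] (P : Measure Ω)
        [IsProbabilityMeasure P] (B : ℕ → ℝ≥0 → ℝ≥0 → Ω → ℝ), IsDynamicalBrownian P B →
        ∀ (n : ℕ), 1 ≤ n → ∀ t : ℝ≥0, 0 < t → (t : ℝ) ≤ (n : ℝ) ^ (-(1 / 3 : ℝ)) →
        ∀ α : ℝ, 0 < α →
          P {ω | α * Real.sqrt (n * t) ≤ |passage B n t ω - passage B n 0 ω|}
            ≤ ENNReal.ofReal (C * α ^ (-k))) := by
  have key : ∀ (Ω : Type) [MeasurableSpace Ω] (P : Measure Ω) [IsProbabilityMeasure P]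
        (B : ℕ → ℝ≥0 → ℝ≥0 → Ω → ℝ), IsDynamicalBrownian P B →
        ∀ (n : ℕ), 1 ≤ n → ∀ t : ℝ≥0, 0 < t → ∀ α : ℝ, 0 < α →
          P {ω | α * Real.sqrt (n * t) ≤ |passage B n t ω - passage B n 0 ω|}
            ≤ ENNReal.ofReal (2 * Real.exp (-(α ^ 2 / Real.pi ^ 2))) := by
    intro Ω _ P _ B hB n hn t ht α hα
    have hB' : V11320.MaxGauss.IsDynamicalBrownian P B :=
      ⟨hB.meas, hB.gauss, hB.mean, hB.cov, hB.cont⟩
    have h1 := V11320.MaxGauss.lpt_two hB' n hn 0 t (t : ℝ) (by exact_mod_cast ht)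
      (by simp) α hα
    exact h1
  refine ⟨key, fun k hk => ?_⟩
  obtain ⟨C, hC1, hC⟩ := V11320.MaxGauss.exp_poly k hk
  refine ⟨C, ?_⟩
  intro Ω _ P _ B hB n hn t ht _ α hα
  rcases le_total 1 α with h | h
  · exact (key Ω P B hB n hn t ht α hα).trans (ENNReal.ofReal_le_ofReal (hC α h))
  · refine prob_le_one.trans ?_
    rw [← ENNReal.ofReal_one]
    refine ENNReal.ofReal_le_ofReal ?_
    have h2 : (1 : ℝ) ≤ α ^ (-k) := Real.one_le_rpow_of_pos_of_le_one_of_nonpos hα h (by linarith)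
    nlinarith

end Pool.Agent.Results.MP_29ad01_pr.GaussianTail
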